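import Pool.Agent.W443.DX.Stm4

/-!
DX3-SQR: no square root of a squarefree polynomial in `f, g`.
-/

set_option autoImplicit false

open MvPolynomial Pool.Agent.W443.DX

namespace Pool.Agent.W435.DX

/-- chain rule -/
lemma chain {k : Type} [Field k] (f g F : MvPolynomial (Fin 2) k) (s : Fin 2) :
    pderiv s (aeval ![f, g] F) = pderiv s f * aeval ![f, g] (pderiv 0 F) +
      pderiv s g * aeval ![f, g] (pderiv 1 F) := by
  have key : pderiv s (aeval ![f, g] F) =
      ∑ t : Fin 2, pderiv s ((![f, g] : Fin 2 → MvPolynomial (Fin 2) k) t) *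
        aeval ![f, g] (pderiv t F) := by
    induction F using MvPolynomial.induction_on with
    | C c => simp [algebraMap_eq]
    | add p q hp hq =>
      simp only [map_add, hp, hq, mul_add, Finset.sum_add_distrib]
    | mul_X p r hp =>
      rw [map_mul, pderiv_mul, hp, aeval_X]
      simp only [pderiv_mul, map_add, map_mul, aeval_X, mul_add, Finset.sum_add_distrib,
        Finset.sum_mul]
      congr 1
      · refine Finset.sum_congr rfl fun t _ => ?_
        ring
      · rw [Finset.sum_eq_single r]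
        · simp [mul_comm]
        · intro b _ hb
          rw [pderiv_X_of_ne hb.symm]
          simp
        · simp
  rw [key, Fin.sum_univ_two]
  rfl

/-- a polynomial with vanishing derivatives is a polynomial in the `p`-th powers -/
lemma expand_of_pderiv {p : ℕ} [Fact p.Prime] (δ : MvPolynomial (Fin 2) (ZMod p))
    (h : ∀ i : Fin 2, pderiv i δ = 0) : ∃ δ' : MvPolynomial (Fin 2) (ZMod p), δ = δ' ^ p := by
  classical
  have hdiv : ∀ m : Fin 2 →₀ ℕ, m ∈ δ.support → ∀ i : Fin 2, p ∣ m i := by
    intro m hm i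
    by_cases h0 : m i = 0
    · rw [h0]; exact dvd_zero _
    · have h1 := coeff_pderiv (i := i) δ (m - Finsupp.single i 1)
      have h2 : m - Finsupp.single i 1 + Finsupp.single i 1 = m := by
        refine tsub_add_cancel_of_le ?_
        rw [Finsupp.single_le_iff]
        omega
      rw [h i, coeff_zero, h2] at h1
      have h3 : ((m - Finsupp.single i 1 : Fin 2 →₀ ℕ) i) + 1 = m i := by
        rw [Finsupp.tsub_apply, Finsupp.single_eq_same]
        omega
      have h4 : ((((m - Finsupp.single i 1 : Fin 2 →₀ ℕ) i) : ZMod p) + 1) = ((m i : ℕ) : ZMod p) := by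
        rw [← h3]
        push_cast
        rfl
      rw [h4] at h1
      rcases mul_eq_zero.1 h1.symm with h5 | h5
      · exact absurd h5 (mem_support_iff.1 hm)
      · exact (ZMod.natCast_eq_zero_iff _ _).1 h5
  refine ⟨∑ m ∈ δ.support, monomial (m.mapRange (fun a => a / p) (Nat.zero_div p)) (coeff m δ), ?_⟩
  rw [← expand_zmod, map_sum]
  conv_lhs => rw [δ.as_sum]
  refine Finset.sum_congr rfl fun m hm => ?_
  rw [expand_monomial]
  have hm2 : p • m.mapRange (fun a => a / p) (Nat.zero_div p) = m := by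
    refine Finsupp.ext fun i => ?_
    rw [Finsupp.smul_apply, Finsupp.mapRange_apply, smul_eq_mul,
      Nat.mul_div_cancel' (hdiv m hm i)]
  rw [hm2]

lemma fac {p : ℕ} [Fact p.Prime] (ψ : MvPolynomial (Fin 2) (ZMod p) →ₐ[ZMod p]
    MvPolynomial (Fin 2) (ZMod p)) (π : MvPolynomial (Fin 2) (ZMod p)) (hπ : Prime π)
    (a : MvPolynomial (Fin 2) (ZMod p)) :
    a ≠ 0 → π ∣ ψ a → ∃ δ, Irreducible δ ∧ δ ∣ a ∧ π ∣ ψ δ := by
  induction a using WfDvdMonoid.induction_on_irreducible with
  | zero => intro h; exact absurd rfl h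
  | unit u hu =>
    intro _ h
    exact absurd (isUnit_of_dvd_unit h (hu.map ψ)) hπ.not_isUnit
  | mul a i ha hi ih =>
    intro _ h
    rw [map_mul] at h
    rcases hπ.dvd_or_dvd h with h | h
    · exact ⟨i, hi, dvd_mul_right _ _, h⟩
    · obtain ⟨δ, h1, h2, h3⟩ := ih ha h
      exact ⟨δ, h1, h2.trans (dvd_mul_left _ _), h3⟩

theorem sqr (h1 : S_CPR) (h2 : S_ALG) : S_SQR := by
  intro p _ f g hJ u Δ hsq hu
  have hΔ0 : Δ ≠ 0 := hsq.ne_zero
  have hψ : aeval ![f, g] Δ ≠ 0 := fun h => hΔ0 (h2 p f g hJ Δ h)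
  have hu0 : u ≠ 0 := by
    intro h
    rw [h, zero_pow two_ne_zero] at hu
    exact hψ hu.symm
  by_cases huu : IsUnit u
  · obtain ⟨c, hc, rfl⟩ := isUnit_iff_eq_C_of_isReduced.1 huu
    have h3 : aeval ![f, g] (Δ - C (c ^ 2)) = 0 := by
      rw [map_sub, ← hu, ← algebraMap_eq, AlgHom.commutes, algebraMap_eq, map_pow, sub_self]
    have h4 := h2 p f g hJ _ h3
    rw [sub_eq_zero.1 h4]
    exact (hc.pow 2).map C
  · exfalso
    obtain ⟨π, hπi, hπu⟩ := WfDvdMonoid.exists_irreducible_factor huu hu0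
    have hπ : Prime π := hπi.prime
    have hπΔ : π ∣ aeval ![f, g] Δ := by
      rw [← hu]
      exact hπu.trans (dvd_pow_self u two_ne_zero)
    have hd : ∀ i : Fin 2, π ∣ pderiv i f * aeval ![f, g] (pderiv 0 Δ) +
        pderiv i g * aeval ![f, g] (pderiv 1 Δ) := by
      intro i
      rw [← chain, ← hu, sq, pderiv_mul]
      exact dvd_add (hπu.mul_left _) (hπu.mul_right _)
    have hJ' : pderiv 0 f * pderiv 1 g - pderiv 1 f * pderiv 0 g = 1 := hJ
    have hd0 : π ∣ aeval ![f, g] (pderiv 0 Δ) := by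
      have e : aeval ![f, g] (pderiv 0 Δ) =
          pderiv 1 g * (pderiv 0 f * aeval ![f, g] (pderiv 0 Δ) +
            pderiv 0 g * aeval ![f, g] (pderiv 1 Δ)) -
          pderiv 0 g * (pderiv 1 f * aeval ![f, g] (pderiv 0 Δ) +
            pderiv 1 g * aeval ![f, g] (pderiv 1 Δ)) := by
        calc aeval ![f, g] (pderiv 0 Δ) = 1 * aeval ![f, g] (pderiv 0 Δ) := (one_mul _).symm
          _ = _ := by rw [← hJ']; ring
      rw [e]
      exact dvd_sub ((hd 0).mul_left _) ((hd 1).mul_left _)
    have hd1 : π ∣ aeval ![f, g] (pderiv 1 Δ) := by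
      have e : aeval ![f, g] (pderiv 1 Δ) =
          pderiv 0 f * (pderiv 1 f * aeval ![f, g] (pderiv 0 Δ) +
            pderiv 1 g * aeval ![f, g] (pderiv 1 Δ)) -
          pderiv 1 f * (pderiv 0 f * aeval ![f, g] (pderiv 0 Δ) +
            pderiv 0 g * aeval ![f, g] (pderiv 1 Δ)) := by
        calc aeval ![f, g] (pderiv 1 Δ) = 1 * aeval ![f, g] (pderiv 1 Δ) := (one_mul _).symm
          _ = _ := by rw [← hJ']; ring
      rw [e]
      exact dvd_sub ((hd 1).mul_left _) ((hd 0).mul_left _)
    obtain ⟨δ, hδ, ⟨ρ, hρ⟩, hπδ⟩ := fac (aeval ![f, g]) π hπ Δ hΔ0 hπΔ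
    have hδρ : ¬ δ ∣ ρ := by
      rintro ⟨r, hr⟩
      refine hδ.not_isUnit (hsq δ ⟨r, ?_⟩)
      rw [hρ, hr]
      ring
    have hrel : IsRelPrime δ ρ := hδ.isRelPrime_iff_not_dvd.2 hδρ
    by_cases hπρ : π ∣ aeval ![f, g] ρ
    · exact h1 p f g hJ δ ρ π hrel hπi hπδ hπρ
    · have hδi : ∀ i : Fin 2, π ∣ aeval ![f, g] (pderiv i δ) := by
        intro i
        have h5 : π ∣ aeval ![f, g] (pderiv i Δ) := by
          fin_cases i
          · exact hd0
          · exact hd1
        rw [hρ, pderiv_mul, map_add, map_mul, map_mul] at h5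
        have h6 : π ∣ aeval ![f, g] (pderiv i δ) * aeval ![f, g] ρ :=
          (dvd_add_left (hπδ.mul_right _)).1 h5
        exact (hπ.dvd_or_dvd h6).resolve_right hπρ
      by_cases hz : ∀ i : Fin 2, pderiv i δ = 0
      · obtain ⟨δ', hδ'⟩ := expand_of_pderiv δ hz
        have hp1 : p ≠ 1 := (Fact.out : p.Prime).ne_one
        rw [hδ'] at hδ
        exact not_irreducible_pow hp1 hδ
      · push Not at hz
        obtain ⟨i, hi⟩ := hz
        have hnd : ¬ δ ∣ pderiv i δ := by
          rintro ⟨r, hr⟩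
          have hr0 : r ≠ 0 := by
            rintro rfl
            exact hi (by rw [hr, mul_zero])
          have h8 : degreeOf i (pderiv i δ) = degreeOf i δ + degreeOf i r := by
            conv_lhs => rw [hr]
            exact degreeOf_mul_eq hδ.ne_zero hr0
          have h9 : degreeOf i (pderiv i δ) + 1 ≤ degreeOf i δ := by
            obtain ⟨m, hm⟩ := (pderiv i δ).support.exists_max_image (fun m => m i)
              (by rwa [Finset.nonempty_iff_ne_empty, Ne, support_eq_empty])
            have ha : degreeOf i (pderiv i δ) ≤ m i := degreeOf_le_iff.2 hm.2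
            have hb : m + Finsupp.single i 1 ∈ δ.support := by
              rw [mem_support_iff]
              intro h0
              have := mem_support_iff.1 hm.1
              rw [coeff_pderiv, h0, zero_mul] at this
              exact this rfl
            have hc := monomial_le_degreeOf i hb
            rw [Finsupp.add_apply, Finsupp.single_eq_same] at hc
            omega
          omega
        exact h1 p f g hJ δ (pderiv i δ) π (hδ.isRelPrime_iff_not_dvd.2 hnd) hπi hπδ (hδi i)

end Pool.Agent.W435.DX
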